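import Mathlib
import Pool.Agent.Lib_helper72.AS.SWDefs
import Pool.Agent.Lib_helper10.Erdos460.Mertens2

set_option autoImplicit false

/-! Mertens' second theorem on real intervals. -/

namespace Pool.Agent.Lib_helper29.SW

open Finset Filter Pool.Agent.Lib_helper72.AP Pool.Agent.Lib_helper72.AS

noncomputable section

lemma log_two_pos' : 0 < Real.log 2 := Real.log_pos (by norm_num)

lemma floor_facts {x : ℝ} (hx : 2 ≤ x) :
    2 ≤ ⌊x⌋₊ ∧ (⌊x⌋₊ : ℝ) ≤ x ∧ x < ⌊x⌋₊ + 1 ∧ 1 / (⌊x⌋₊ : ℝ) ≤ 2 / Real.log x ∧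
      Real.log x ≤ 2 * Real.log ⌊x⌋₊ ∧ 0 < Real.log ⌊x⌋₊ ∧ 0 < Real.log x := by
  have h2 : 2 ≤ ⌊x⌋₊ := Nat.le_floor (by exact_mod_cast hx)
  have h2r : (2 : ℝ) ≤ ⌊x⌋₊ := by exact_mod_cast h2
  have hle : (⌊x⌋₊ : ℝ) ≤ x := Nat.floor_le (by linarith)
  have hlt : x < ⌊x⌋₊ + 1 := Nat.lt_floor_add_one x
  have hlx : 0 < Real.log x := Real.log_pos (by linarith)
  have hlf : 0 < Real.log ⌊x⌋₊ := Real.log_pos (by linarith)
  refine ⟨h2, hle, hlt, ?_, ?_, hlf, hlx⟩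
  · have h1 : Real.log x ≤ x := (Real.log_le_sub_one_of_pos (by linarith)).trans (by linarith)
    rw [div_le_div_iff₀ (by linarith) hlx]
    linarith
  · have h1 : x ≤ (⌊x⌋₊ : ℝ) ^ 2 := by nlinarith
    calc Real.log x ≤ Real.log ((⌊x⌋₊ : ℝ) ^ 2) := Real.log_le_log (by linarith) h1
      _ = 2 * Real.log ⌊x⌋₊ := by rw [Real.log_pow]; norm_num

lemma loglog_floor {x : ℝ} (hx : 2 ≤ x) :
    |Real.log (Real.log ⌊x⌋₊) - Real.log (Real.log x)| ≤ (2 / Real.log 2) / Real.log x := by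
  obtain ⟨h2, hle, hlt, hinv, hlog, hlf, hlx⟩ := floor_facts hx
  have h2r : (2 : ℝ) ≤ ⌊x⌋₊ := by exact_mod_cast h2
  have hmono : Real.log ⌊x⌋₊ ≤ Real.log x := Real.log_le_log (by linarith) hle
  have h1 : Real.log (Real.log ⌊x⌋₊) ≤ Real.log (Real.log x) := Real.log_le_log hlf hmono
  rw [abs_sub_comm, abs_of_nonneg (by linarith)]
  have h3 : Real.log (Real.log x) - Real.log (Real.log ⌊x⌋₊)
      = Real.log (Real.log x / Real.log ⌊x⌋₊) := by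
    rw [Real.log_div hlx.ne' hlf.ne']
  have h4 : Real.log (Real.log x / Real.log ⌊x⌋₊) ≤ Real.log x / Real.log ⌊x⌋₊ - 1 :=
    Real.log_le_sub_one_of_pos (by positivity)
  have h5 : Real.log x - Real.log ⌊x⌋₊ ≤ 1 / ⌊x⌋₊ := by
    rw [← Real.log_div (by linarith) (by linarith)]
    refine (Real.log_le_sub_one_of_pos (by positivity)).trans ?_
    rw [div_sub_one (by linarith : (⌊x⌋₊ : ℝ) ≠ 0)]
    gcongr
    linarith
  have hl2 : Real.log 2 ≤ Real.log ⌊x⌋₊ := Real.log_le_log (by norm_num) h2r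
  rw [h3]
  refine h4.trans ?_
  rw [div_sub_one hlf.ne']
  calc (Real.log x - Real.log ⌊x⌋₊) / Real.log ⌊x⌋₊
      ≤ (2 / Real.log x) / Real.log ⌊x⌋₊ := by
        gcongr
        exact h5.trans hinv
    _ ≤ (2 / Real.log x) / Real.log 2 := by
        have := log_two_pos'
        gcongr
    _ = (2 / Real.log 2) / Real.log x := by ring

lemma PI_sum_eq {x y : ℝ} (hxy : x ≤ y) (f : ℕ → ℝ) :
    ∑ p ∈ PI x y, f p = ∑ p ∈ Nat.primesLE ⌊y⌋₊, f p - ∑ p ∈ Nat.primesLE ⌊x⌋₊, f p := by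
  have hfl : ⌊x⌋₊ ≤ ⌊y⌋₊ := Nat.floor_le_floor hxy
  have hsub : Nat.primesLE ⌊x⌋₊ ⊆ Nat.primesLE ⌊y⌋₊ := by
    intro p hp
    rw [Nat.mem_primesLE] at hp ⊢
    exact ⟨hp.1.trans hfl, hp.2⟩
  have hEq : PI x y = Nat.primesLE ⌊y⌋₊ \ Nat.primesLE ⌊x⌋₊ := by
    ext p
    rw [PI, mem_filter, mem_Ioc, Finset.mem_sdiff, Nat.mem_primesLE, Nat.mem_primesLE]
    constructor
    · rintro ⟨⟨h1, h2⟩, h3⟩
      exact ⟨⟨h2, h3⟩, fun h => by omega⟩
    · rintro ⟨⟨h1, h2⟩, h3⟩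
      refine ⟨⟨?_, h1⟩, h2⟩
      by_contra hcon
      exact h3 ⟨by omega, h2⟩
  rw [hEq, eq_sub_iff_add_eq, Finset.sum_sdiff hsub]

theorem mertens : StmtMertens := by
  obtain ⟨M, C, hC0, hM⟩ := Pool.Agent.Lib_helper10.Erdos460.mertens_second
  have hl2 := log_two_pos'
  refine ⟨4 * C + 4 / Real.log 2, by positivity, fun x y hx hxy => ?_⟩
  have hy : 2 ≤ y := hx.trans hxy
  obtain ⟨h2, hle, hlt, hinv, hlog, hlf, hlx⟩ := floor_facts hx
  obtain ⟨h2y, hley, hlty, hinvy, hlogy, hlfy, hly⟩ := floor_facts hy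
  have hmx := hM _ h2
  have hmy := hM _ h2y
  have hxl := loglog_floor hx
  have hyl := loglog_floor hy
  have hll : Real.log x ≤ Real.log y := Real.log_le_log (by linarith) hxy
  have e1 : C / Real.log ⌊x⌋₊ ≤ 2 * C / Real.log x := by
    rw [div_le_div_iff₀ hlf hlx]
    nlinarith
  have e2 : C / Real.log ⌊y⌋₊ ≤ 2 * C / Real.log x := by
    rw [div_le_div_iff₀ hlfy hlx]
    nlinarith
  have e3 : (2 / Real.log 2) / Real.log y ≤ (2 / Real.log 2) / Real.log x := by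
    gcongr
  rw [PI_sum_eq hxy]
  have e4 : (4 * C + 4 / Real.log 2) / Real.log x
      = 2 * C / Real.log x + 2 * C / Real.log x + (2 / Real.log 2) / Real.log x
        + (2 / Real.log 2) / Real.log x := by ring
  rw [e4]
  rw [abs_le] at *
  constructor <;> linarith [hmx.1, hmx.2, hmy.1, hmy.2, hxl.1, hxl.2, hyl.1, hyl.2]

end

end Pool.Agent.Lib_helper29.SW
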