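import Mathlib
import Pool.Agent.Lib_helper29.SW.M0

set_option autoImplicit false

/-! Chebyshev bounds in the form of `StmtCheb`. -/

namespace Pool.Agent.Lib_helper29.SW

open Finset Filter Pool.Agent.Lib_helper72.AP Pool.Agent.Lib_helper72.AS

noncomputable section

lemma ev_80 : ∀ᶠ x : ℝ in atTop,
    80 * Real.log ((4 * ⌊x⌋₊ : ℕ) : ℝ) ≤ Real.sqrt ((⌊x⌋₊ : ℕ) : ℝ) := by
  have h1 : Tendsto (fun x : ℝ => ((⌊x⌋₊ : ℕ) : ℝ)) atTop atTop :=
    tendsto_natCast_atTop_atTop.comp tendsto_nat_floor_atTop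
  have h2 : ∀ᶠ u : ℝ in atTop, 80 * Real.log (4 * u) ≤ Real.sqrt u := by
    have h3 : Tendsto (fun u : ℝ => 4 * u) atTop atTop :=
      tendsto_id.const_mul_atTop (by norm_num)
    have h4 := (isLittleO_log_rpow_atTop (r := 1 / 2) (by norm_num)).comp_tendsto h3
    have h5 := h4.bound (c := 1 / 160) (by norm_num)
    filter_upwards [h5, eventually_ge_atTop (1 : ℝ)] with u hu hu1
    simp only [Function.comp_apply] at hu
    rw [Real.norm_of_nonneg (Real.log_nonneg (by linarith)), Real.norm_of_nonneg (by positivity),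
      ← Real.sqrt_eq_rpow, Real.sqrt_mul (by norm_num), show Real.sqrt 4 = 2 by
        rw [show (4 : ℝ) = 2 ^ 2 by norm_num]; exact Real.sqrt_sq (by norm_num)] at hu
    linarith
  filter_upwards [h1.eventually h2] with x hx
  push_cast
  exact hx

theorem cheb : StmtCheb := by
  have h1 := Chebyshev.eventually_primeCounting_le (ε := 1) one_pos
  have h3 : Tendsto (fun u : ℝ => 4 * u) atTop atTop :=
    tendsto_id.const_mul_atTop (by norm_num)
  have h2 := h3.eventually h1
  obtain ⟨x₀, hx₀⟩ := eventually_atTop.1 (h2.and ev_80)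
  have hlog4 : 0 < Real.log 4 := Real.log_pos (by norm_num)
  refine ⟨1 / 4, (Real.log 4 + 1) * 4, max x₀ 4, by norm_num, by positivity, le_max_right _ _,
    fun x hx => ?_⟩
  have hx4 : 4 ≤ x := (le_max_right _ _).trans hx
  obtain ⟨hA, hB⟩ := hx₀ x ((le_max_left _ _).trans hx)
  obtain ⟨f2, fle, flt, -, flog, flf, flx⟩ := floor_facts (x := x) (by linarith)
  have f4 : 4 ≤ ⌊x⌋₊ := Nat.le_floor (by exact_mod_cast hx4)
  have f4r : (4 : ℝ) ≤ ⌊x⌋₊ := by exact_mod_cast f4
  constructor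
  · have h5 := QQ_card_ge (A := ⌊x⌋₊) (by omega) hB
    have hsub : QQ ⌊x⌋₊ ⊆ PI x (4 * x) := by
      intro p hp
      rw [QQ, mem_filter, mem_Ioc] at hp
      rw [PI, mem_filter, mem_Ioc]
      refine ⟨⟨hp.1.1, hp.1.2.trans ?_⟩, hp.2⟩
      apply Nat.le_floor
      push_cast
      linarith
    have hcard : ((QQ ⌊x⌋₊).card : ℝ) ≤ ((PI x (4 * x)).card : ℝ) := by
      exact_mod_cast Finset.card_le_card hsub
    have hl4 : Real.log ((4 * ⌊x⌋₊ : ℕ) : ℝ) ≤ 2 * Real.log x := by
      rw [← Real.log_rpow (by linarith)]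
      apply Real.log_le_log (by positivity)
      push_cast
      have : x ^ (2 : ℝ) = x * x := by
        rw [show (2 : ℝ) = ((2 : ℕ) : ℝ) by norm_num, Real.rpow_natCast]; ring
      rw [this]
      nlinarith
    have hl4pos : 0 < Real.log ((4 * ⌊x⌋₊ : ℕ) : ℝ) := by
      apply Real.log_pos
      push_cast
      linarith
    have h6 : (⌊x⌋₊ : ℝ) ≤ ((PI x (4 * x)).card : ℝ) * (2 * Real.log x) := by
      refine h5.trans ?_
      exact mul_le_mul hcard hl4 hl4pos.le (by positivity)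
    have h7 : x / 2 ≤ ⌊x⌋₊ := by linarith
    rw [mul_div_assoc', div_le_iff₀ flx]
    linarith
  · have hcardle : (((Icc 1 ⌊4 * x⌋₊).filter Nat.Prime).card : ℝ)
        ≤ ((Nat.primeCounting ⌊4 * x⌋₊ : ℕ) : ℝ) := by
      have : ((Icc 1 ⌊4 * x⌋₊).filter Nat.Prime).card ≤ (Nat.primesLE ⌊4 * x⌋₊).card := by
        apply Finset.card_le_card
        intro p hp
        rw [mem_filter, mem_Icc] at hp
        rw [Nat.mem_primesLE]
        exact ⟨hp.1.2, hp.2⟩
      have h8 : (Nat.primesLE ⌊4 * x⌋₊).card = Nat.primeCounting ⌊4 * x⌋₊ := by simp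
      rw [h8] at this
      exact_mod_cast this
    refine hcardle.trans (hA.trans ?_)
    have hl : Real.log x ≤ Real.log (4 * x) := Real.log_le_log (by linarith) (by linarith)
    have hx0 : 0 < x := by linarith
    rw [mul_assoc, mul_div_assoc]
    apply mul_le_mul_of_nonneg_left _ (by positivity)
    rw [mul_div_assoc']
    gcongr

end

end Pool.Agent.Lib_helper29.SW
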