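import Mathlib
import Pool.Agent.Lib_helper29.SW.M0

set_option autoImplicit false

/-! The logarithmic sum over the integers free of a set of primes (Rankin's method). -/

namespace Pool.Agent.Lib_helper29.SW

open Finset Filter Pool.Agent.Lib_helper72.AP Pool.Agent.Lib_helper72.AS

noncomputable section

/-- `n ↦ n ^ (-s)` as a multiplicative map. -/
def rpm (s : ℝ) : ℕ →* ℝ where
  toFun n := (n : ℝ) ^ (-s)
  map_one' := by simp
  map_mul' a b := by
    push_cast
    exact Real.mul_rpow (Nat.cast_nonneg _) (Nat.cast_nonneg _)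

lemma rpm_apply (s : ℝ) (n : ℕ) : rpm s n = (n : ℝ) ^ (-s) := rfl

lemma rpm_nonneg (s : ℝ) (n : ℕ) : 0 ≤ rpm s n := by
  rw [rpm_apply]
  positivity

lemma rpm_lt_one {s : ℝ} (hs : 0 < s) {p : ℕ} (hp : p.Prime) : ‖rpm s p‖ < 1 := by
  rw [Real.norm_of_nonneg (rpm_nonneg _ _), rpm_apply]
  apply Real.rpow_lt_one_of_one_lt_of_neg
  · exact_mod_cast hp.one_lt
  · linarith

lemma rpm_hasSum {s : ℝ} (hs : 0 < s) {P : Finset ℕ} (hP : ∀ p ∈ P, p.Prime) :
    HasSum (fun m : Nat.factoredNumbers P => ((m : ℕ) : ℝ) ^ (-s))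
      (∏ p ∈ P, (1 - (p : ℝ) ^ (-s))⁻¹) := by
  have h := (EulerProduct.summable_and_hasSum_factoredNumbers_prod_filter_prime_geometric
    (f := rpm s) (fun {p} hp => rpm_lt_one hs hp) P).2
  rw [Finset.filter_true_of_mem hP] at h
  exact h

/-- Truncation of the Euler product. -/
lemma trunc {P F : Finset ℕ} (hP : ∀ p ∈ P, p.Prime) {Y σ : ℝ} (hY : 0 < Y) (hσ0 : 0 ≤ σ)
    (hσ : σ < 1) (hF : ∀ m : ℕ, 1 ≤ m → (m : ℝ) ≤ Y → (∀ p : ℕ, p.Prime → p ∣ m → p ∈ P) →
      m ∈ F) :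
    ∏ p ∈ P, (1 - (1 : ℝ) / p)⁻¹ ≤ ∑ m ∈ F, (1 : ℝ) / m
      + Y ^ (-σ) * ∏ p ∈ P, (1 - (p : ℝ) ^ (-(1 - σ)))⁻¹ := by
  have H1 := rpm_hasSum (s := 1) one_pos hP
  have H2 := rpm_hasSum (s := 1 - σ) (by linarith) hP
  have e1 : ∏ p ∈ P, (1 - (p : ℝ) ^ (-(1 : ℝ)))⁻¹ = ∏ p ∈ P, (1 - (1 : ℝ) / p)⁻¹ := by
    refine Finset.prod_congr rfl fun p _ => ?_
    rw [Real.rpow_neg_one, one_div]
  rw [e1] at H1
  refine hasSum_le_of_sum_le H1 fun S => ?_
  rw [← Finset.sum_filter_add_sum_filter_not S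
    (fun m : Nat.factoredNumbers P => ((m : ℕ) : ℝ) ≤ Y)]
  apply add_le_add
  · have h1 : ∑ m ∈ S.filter (fun m : Nat.factoredNumbers P => ((m : ℕ) : ℝ) ≤ Y), ((m : ℕ) : ℝ) ^ (-(1 : ℝ))
        = ∑ m ∈ (S.filter (fun m : Nat.factoredNumbers P => ((m : ℕ) : ℝ) ≤ Y)).map (Function.Embedding.subtype _),
          (1 : ℝ) / m := by
      rw [Finset.sum_map]
      refine Finset.sum_congr rfl fun m _ => ?_
      rw [Real.rpow_neg_one, one_div]
      rfl
    rw [h1]
    apply Finset.sum_le_sum_of_subset_of_nonneg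
    · intro m hm
      rw [Finset.mem_map] at hm
      obtain ⟨m', hm', rfl⟩ := hm
      rw [mem_filter] at hm'
      have h2 := m'.2
      refine hF _ ?_ hm'.2 ?_
      · exact Nat.one_le_iff_ne_zero.2 (Nat.ne_zero_of_mem_factoredNumbers h2)
      · exact Nat.mem_factoredNumbers'.1 h2
    · intro m _ _
      positivity
  · have h2 : ∑ m ∈ S.filter (fun m : Nat.factoredNumbers P => ¬ ((m : ℕ) : ℝ) ≤ Y), ((m : ℕ) : ℝ) ^ (-(1 : ℝ))
        ≤ ∑ m ∈ S.filter (fun m : Nat.factoredNumbers P => ¬ ((m : ℕ) : ℝ) ≤ Y),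
          Y ^ (-σ) * ((m : ℕ) : ℝ) ^ (-(1 - σ)) := by
      refine Finset.sum_le_sum fun m hm => ?_
      rw [mem_filter, not_le] at hm
      have hm0 : (0 : ℝ) < (m : ℕ) := hY.trans hm.2
      have h3 : ((m : ℕ) : ℝ) ^ (-(1 : ℝ)) = ((m : ℕ) : ℝ) ^ (-σ) * ((m : ℕ) : ℝ) ^ (-(1 - σ)) := by
        rw [← Real.rpow_add hm0]
        congr 1
        ring
      rw [h3]
      apply mul_le_mul_of_nonneg_right _ (by positivity)
      exact Real.rpow_le_rpow_of_nonpos hY hm.2.le (by linarith)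
    refine h2.trans ?_
    rw [← Finset.mul_sum]
    apply mul_le_mul_of_nonneg_left _ (by positivity)
    exact sum_le_hasSum _ (fun i _ => by positivity) H2

/-- Comparison of the two Euler products. -/
lemma prod_compare {P : Finset ℕ} {σ : ℝ} (hσ0 : 0 ≤ σ)
    (h6 : ∀ p ∈ P, 6 ≤ p) (hsm : ∀ p ∈ P, σ * Real.log p ≤ 1) :
    ∏ p ∈ P, (1 - (p : ℝ) ^ (-(1 - σ)))⁻¹ ≤
      Real.exp (4 * σ * ∑ p ∈ P, Real.log p / p) * ∏ p ∈ P, (1 - (1 : ℝ) / p)⁻¹ := by
  rw [Finset.mul_sum, Real.exp_sum, ← Finset.prod_mul_distrib]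
  apply Finset.prod_le_prod
  · intro p hp
    have h := h6 p hp
    have hpr : (6 : ℝ) ≤ p := by exact_mod_cast h
    have hp0 : (0 : ℝ) < p := by linarith
    have hlp : 0 ≤ Real.log p := Real.log_nonneg (by linarith)
    have hu0 : 0 ≤ σ * Real.log p := by positivity
    rw [inv_nonneg]
    have h1 : (p : ℝ) ^ (-(1 - σ)) ≤ 3 / p := by
      have e : (p : ℝ) ^ (-(1 - σ)) = Real.exp (σ * Real.log p) / p := by
        rw [Real.rpow_def_of_pos hp0, show Real.log p * -(1 - σ) = σ * Real.log p - Real.log p by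
          ring, Real.exp_sub, Real.exp_log hp0]
      rw [e]
      gcongr
      calc Real.exp (σ * Real.log p) ≤ Real.exp 1 := Real.exp_le_exp.2 (hsm p hp)
        _ ≤ 3 := by have := Real.exp_one_lt_d9; linarith
    have h2 : (3 : ℝ) / p ≤ 1 / 2 := by
      rw [div_le_div_iff₀ hp0 (by norm_num)]
      linarith
    linarith
  · intro p hp
    have h := h6 p hp
    have hpr : (6 : ℝ) ≤ p := by exact_mod_cast h
    have hp0 : (0 : ℝ) < p := by linarith
    have hlp : 0 ≤ Real.log p := Real.log_nonneg (by linarith)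
    have hu0 : 0 ≤ σ * Real.log p := by positivity
    have e : (p : ℝ) ^ (-(1 - σ)) = Real.exp (σ * Real.log p) / p := by
      rw [Real.rpow_def_of_pos hp0, show Real.log p * -(1 - σ) = σ * Real.log p - Real.log p by
        ring, Real.exp_sub, Real.exp_log hp0]
    rw [e]
    set q := Real.exp (σ * Real.log p) with hq
    have hq1 : 1 ≤ q := Real.one_le_exp hu0
    have hq3 : q ≤ 3 := by
      calc Real.exp (σ * Real.log p) ≤ Real.exp 1 := Real.exp_le_exp.2 (hsm p hp)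
        _ ≤ 3 := by have := Real.exp_one_lt_d9; linarith
    have hq2 : q - 1 ≤ 2 * (σ * Real.log p) := by
      have := Real.abs_exp_sub_one_le (x := σ * Real.log p) (by
        rw [abs_of_nonneg hu0]; exact hsm p hp)
      rw [abs_of_nonneg hu0] at this
      exact (le_abs_self _).trans this
    have e1 : (1 - q / p)⁻¹ = p / (p - q) := by
      have : (p : ℝ) - q ≠ 0 := by linarith
      field_simp
    have e2 : (1 - 1 / (p : ℝ))⁻¹ = p / (p - 1) := by
      have : (p : ℝ) - 1 ≠ 0 := by linarith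
      field_simp
    rw [e1, e2]
    have h3 : 1 + 4 * σ * (Real.log p / p) ≤ Real.exp (4 * σ * (Real.log p / p)) := by
      have := Real.add_one_le_exp (4 * σ * (Real.log p / p))
      linarith
    refine le_trans ?_ (mul_le_mul_of_nonneg_right h3 (by
      apply div_nonneg hp0.le; linarith))
    have h4 : (p : ℝ) / (p - q) ≤ (1 + 2 * (q - 1) / p) * (p / (p - 1)) := by
      rw [div_le_iff₀ (by linarith)]
      have : (1 + 2 * (q - 1) / p) * (p / (p - 1)) * (p - q)
          = (p + 2 * (q - 1)) * (p - q) / (p - 1) := by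
        field_simp
      rw [this, le_div_iff₀ (by linarith)]
      nlinarith
    refine h4.trans ?_
    apply mul_le_mul_of_nonneg_right _ (by apply div_nonneg hp0.le; linarith)
    have : 2 * (q - 1) / p ≤ 4 * σ * (Real.log p / p) := by
      have e3 : 4 * σ * (Real.log p / p) = (4 * σ * Real.log p) / p := by ring
      rw [e3]
      exact div_le_div_of_nonneg_right (by linarith) hp0.le
    linarith

lemma exp_sum_le_prod {P : Finset ℕ} (h6 : ∀ p ∈ P, 6 ≤ p) :
    Real.exp (∑ p ∈ P, (1 : ℝ) / p) ≤ ∏ p ∈ P, (1 - (1 : ℝ) / p)⁻¹ := by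
  rw [Real.exp_sum]
  apply Finset.prod_le_prod
  · intro p _
    positivity
  · intro p hp
    have h := h6 p hp
    have hpr : (6 : ℝ) ≤ p := by exact_mod_cast h
    have hp0 : (0 : ℝ) < p := by linarith
    have h1 : 1 / (p : ℝ) ≤ 1 / 6 := one_div_le_one_div_of_le (by norm_num) hpr
    rw [← inv_inv (Real.exp (1 / (p : ℝ))), ← Real.exp_neg]
    apply inv_anti₀ (by linarith)
    exact Real.one_sub_le_exp_neg _

lemma mE_mono_right (n : ℕ) {D y y' : ℝ} (hD : 0 ≤ D) (hy : y ≤ y') : mE n D y ≤ mE n D y' := by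
  rw [mE, mE]
  apply Finset.sum_le_sum_of_subset_of_nonneg
  · intro p hp
    rw [mem_filter, mem_PI hD] at hp ⊢
    exact ⟨⟨hp.1.1, hp.1.2.1, hp.1.2.2.trans hy⟩, hp.2⟩
  · intro p _ _
    positivity

lemma flow_pos : ∃ c K : ℝ, 0 < c ∧ 1 ≤ K ∧ ∀ (D : ℝ) (n : ℕ) (t : ℝ), 0 < D →
    K ≤ Real.log D → K * Real.log D ≤ t →
    c * (t / Real.log D) * Real.exp (-mE n D (Real.exp t))
      ≤ ∑ m ∈ FF D n (Real.exp t), (1 : ℝ) / m := by
  obtain ⟨C0, hC0, hM1⟩ := Pool.Agent.Lib_helper10.Erdos460.mertens_first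
  obtain ⟨C, hC, hM2⟩ := mertens
  refine ⟨1 / 2 * (1 / 9) * Real.exp (-C), 9 + 9 * C0, by positivity, by linarith, ?_⟩
  intro D n t hD0 hD ht
  set K : ℝ := 9 + 9 * C0 with hK
  have hK9 : 9 ≤ K := by linarith
  have hlD9 : 9 ≤ Real.log D := hK9.trans hD
  have hlD0 : 0 < Real.log D := by linarith
  have hD6 : 6 ≤ D := by
    have h1 := Real.log_le_sub_one_of_pos hD0
    linarith
  have ht9 : 9 * Real.log D ≤ t := by nlinarith
  have ht0 : 0 < t := by linarith
  have htC : 9 * C0 ≤ t := by nlinarith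
  set z := Real.exp (t / 9) with hz
  have hz0 : 0 < z := Real.exp_pos _
  have hlz : Real.log z = t / 9 := Real.log_exp _
  have hDz : D ≤ z := by
    rw [hz, ← Real.log_le_iff_le_exp hD0]
    linarith
  have hzt : z ≤ Real.exp t := Real.exp_le_exp.2 (by linarith)
  set P := (PI D z).filter (fun p => ¬ p ∣ n) with hP
  have hmemP : ∀ p, p ∈ P ↔ (p.Prime ∧ D < p ∧ (p : ℝ) ≤ z) ∧ ¬ p ∣ n := by
    intro p
    rw [hP, mem_filter, mem_PI hD0.le]
  have hPprime : ∀ p ∈ P, p.Prime := fun p hp => ((hmemP p).1 hp).1.1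
  have hP6 : ∀ p ∈ P, 6 ≤ p := by
    intro p hp
    have h1 := ((hmemP p).1 hp).1.2.1
    have h2 : (6 : ℝ) ≤ p := by linarith
    exact_mod_cast h2
  set σ : ℝ := 9 / t with hσ
  have hσ0 : 0 ≤ σ := by positivity
  have hσ1 : σ < 1 := by
    rw [hσ, div_lt_one ht0]
    linarith
  have hsm : ∀ p ∈ P, σ * Real.log p ≤ 1 := by
    intro p hp
    obtain ⟨⟨hp1, hp2, hp3⟩, -⟩ := (hmemP p).1 hp
    have hp0 : (0 : ℝ) < p := by exact_mod_cast hp1.pos
    have h1 : Real.log p ≤ t / 9 := by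
      rw [← hlz]
      exact Real.log_le_log hp0 hp3
    calc σ * Real.log p ≤ σ * (t / 9) := mul_le_mul_of_nonneg_left h1 hσ0
      _ = 1 := by rw [hσ]; field_simp
  have hA := trunc (P := P) (F := FF D n (Real.exp t)) hPprime (Real.exp_pos t) hσ0 hσ1 (by
    intro m hm1 hmY hmP
    rw [mem_FF]
    refine ⟨⟨hm1, hmY⟩, fun p hp hpm => ?_⟩
    have h1 := (hmemP p).1 (hmP p hp hpm)
    exact ⟨h1.1.2.1, h1.2⟩)
  have hB := prod_compare hσ0 hP6 hsm
  have hsumlog : ∑ p ∈ P, Real.log p / p ≤ t / 9 + C0 := by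
    have h1 : 1 ≤ ⌊z⌋₊ := Nat.le_floor (by push_cast; linarith)
    have h2 := hM1 ⌊z⌋₊ h1
    have h3 : ∑ p ∈ P, Real.log p / p ≤ ∑ p ∈ Nat.primesLE ⌊z⌋₊, Real.log p / p := by
      apply Finset.sum_le_sum_of_subset_of_nonneg
      · intro p hp
        obtain ⟨⟨hp1, hp2, hp3⟩, -⟩ := (hmemP p).1 hp
        rw [Nat.mem_primesLE]
        exact ⟨Nat.le_floor hp3, hp1⟩
      · intro p _ _
        exact div_nonneg (Real.log_natCast_nonneg p) (Nat.cast_nonneg p)
    have h4 : Real.log ⌊z⌋₊ ≤ Real.log z :=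
      Real.log_le_log (by exact_mod_cast h1) (Nat.floor_le hz0.le)
    rw [hlz] at h4
    have h5 := (abs_le.1 h2).2
    linarith
  have hexp8 : Real.exp (4 * σ * ∑ p ∈ P, Real.log p / p) ≤ Real.exp 8 := by
    apply Real.exp_le_exp.2
    calc 4 * σ * ∑ p ∈ P, Real.log p / p ≤ 4 * σ * (t / 9 + C0) :=
          mul_le_mul_of_nonneg_left hsumlog (by positivity)
      _ = 4 + 4 * (9 * C0 / t) := by rw [hσ]; field_simp
      _ ≤ 4 + 4 * 1 := by
          have : 9 * C0 / t ≤ 1 := by rw [div_le_one ht0]; exact htC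
          linarith
      _ = 8 := by norm_num
  set pp1 := ∏ p ∈ P, (1 - (1 : ℝ) / p)⁻¹ with hpp1
  have hpp1pos : 0 < pp1 := lt_of_lt_of_le (Real.exp_pos _) (exp_sum_le_prod hP6)
  have hYσ : (Real.exp t) ^ (-σ) = Real.exp (-9) := by
    rw [← Real.exp_mul]
    congr 1
    rw [hσ]
    field_simp
  have htail : (Real.exp t) ^ (-σ) * ∏ p ∈ P, (1 - (p : ℝ) ^ (-(1 - σ)))⁻¹ ≤ 1 / 2 * pp1 := by
    calc (Real.exp t) ^ (-σ) * ∏ p ∈ P, (1 - (p : ℝ) ^ (-(1 - σ)))⁻¹
        ≤ Real.exp (-9) * (Real.exp 8 * pp1) := by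
          rw [hYσ]
          apply mul_le_mul_of_nonneg_left _ (Real.exp_pos _).le
          exact hB.trans (mul_le_mul_of_nonneg_right hexp8 hpp1pos.le)
      _ = Real.exp (-1) * pp1 := by
          rw [← mul_assoc, ← Real.exp_add]
          norm_num
      _ ≤ 1 / 2 * pp1 := by
          apply mul_le_mul_of_nonneg_right _ hpp1pos.le
          have := Real.exp_neg_one_lt_d9
          linarith
  have hmain : 1 / 2 * pp1 ≤ ∑ m ∈ FF D n (Real.exp t), (1 : ℝ) / m := by linarith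
  refine le_trans ?_ hmain
  have hexpsum := exp_sum_le_prod hP6
  have hPsum : ∑ p ∈ P, (1 : ℝ) / p = ∑ p ∈ PI D z, (1 : ℝ) / p - mE n D z := by
    rw [mE, eq_sub_iff_add_eq, hP, add_comm]
    exact Finset.sum_filter_add_sum_filter_not _ _ _
  have hmE : mE n D z ≤ mE n D (Real.exp t) := mE_mono_right n hD0.le hzt
  have hM := hM2 D z (by linarith) hDz
  have hM' := (abs_le.1 hM).1
  have hCD : C / Real.log D ≤ C := by
    rw [div_le_iff₀ hlD0]
    nlinarith
  have hlow : Real.log (Real.log z) - Real.log (Real.log D) - C - mE n D (Real.exp t)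
      ≤ ∑ p ∈ P, (1 : ℝ) / p := by
    rw [hPsum]
    linarith
  have hexplow := (Real.exp_le_exp.2 hlow).trans hexpsum
  have heq : Real.exp (Real.log (Real.log z) - Real.log (Real.log D) - C - mE n D (Real.exp t))
      = (t / 9) / Real.log D * Real.exp (-C) * Real.exp (-mE n D (Real.exp t)) := by
    rw [hlz, sub_eq_add_neg (_ - C), Real.exp_add, sub_eq_add_neg (_ - _) C, Real.exp_add,
      Real.exp_sub, Real.exp_log (by positivity), Real.exp_log hlD0]
  rw [heq] at hexplow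
  calc 1 / 2 * (1 / 9) * Real.exp (-C) * (t / Real.log D) * Real.exp (-mE n D (Real.exp t))
      = 1 / 2 * ((t / 9) / Real.log D * Real.exp (-C) * Real.exp (-mE n D (Real.exp t))) := by
        ring
    _ ≤ 1 / 2 * pp1 := by linarith

theorem flow : StmtFlow := by
  obtain ⟨c, K, hc, hK, h⟩ := flow_pos
  refine ⟨c, K, hc, hK, fun D n t hD ht => ?_⟩
  rcases lt_trichotomy D 0 with hneg | h0 | hpos
  · have hD0 : 0 < |D| := abs_pos.2 hneg.ne
    have h1 := h |D| n t hD0 (by rw [Real.log_abs]; exact hD) (by rw [Real.log_abs]; exact ht)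
    rw [Real.log_abs] at h1
    have hlD : 0 < Real.log D := by linarith
    have ht0 : 0 < t := lt_of_lt_of_le (mul_pos (by linarith) hlD) ht
    have h2 : mE n |D| (Real.exp t) ≤ mE n D (Real.exp t) := by
      rw [mE, mE]
      apply Finset.sum_le_sum_of_subset_of_nonneg
      · intro p hp
        rw [mem_filter, mem_PI (abs_nonneg D)] at hp
        rw [mem_filter, PI, mem_filter, mem_Ioc]
        refine ⟨⟨⟨?_, Nat.le_floor hp.1.2.2⟩, hp.1.1⟩, hp.2⟩
        rw [Nat.floor_of_nonpos hneg.le]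
        exact hp.1.1.pos
      · intro p _ _
        positivity
    have h3 : FF |D| n (Real.exp t) ⊆ FF D n (Real.exp t) := by
      intro m hm
      rw [mem_FF] at hm ⊢
      refine ⟨hm.1, fun p hp hpm => ?_⟩
      obtain ⟨h4, h5⟩ := hm.2 p hp hpm
      exact ⟨lt_of_le_of_lt (le_abs_self D) h4, h5⟩
    calc c * (t / Real.log D) * Real.exp (-mE n D (Real.exp t))
        ≤ c * (t / Real.log D) * Real.exp (-mE n |D| (Real.exp t)) := by
          apply mul_le_mul_of_nonneg_left _ (by positivity)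
          apply Real.exp_le_exp.2
          linarith
      _ ≤ _ := h1
      _ ≤ _ := Finset.sum_le_sum_of_subset_of_nonneg h3 (fun m _ _ => by positivity)
  · rw [h0, Real.log_zero] at hD
    linarith
  · exact h D n t hpos hD ht

end

end Pool.Agent.Lib_helper29.SW
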