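import Mathlib
import Pool.Agent.Lib_helper72.AS.SWDefs

set_option autoImplicit false

/-! A scale at which `n` has few prime factors. -/

namespace Pool.Agent.Lib_helper29.SW

open Finset Filter Pool.Agent.Lib_helper72.AP Pool.Agent.Lib_helper72.AS

noncomputable section

lemma sum_inv_ge (m k : ℕ) (hm : 1 ≤ m) (hmk : m ≤ k + 1) :
    Real.log ((k : ℝ) + 1) - Real.log m ≤ ∑ i ∈ Icc m k, (1 : ℝ) / i := by
  induction k with
  | zero =>
    have : m = 1 := by omega
    subst this
    simp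
  | succ k ih =>
    rcases Nat.lt_or_ge (k + 1) m with h | h
    · have hm2 : m = k + 2 := by omega
      subst hm2
      rw [Finset.Icc_eq_empty (by omega), Finset.sum_empty]
      push_cast
      apply le_of_eq
      rw [sub_eq_zero]
      congr 1
      ring
    · have ih' := ih h
      rw [Finset.sum_Icc_succ_top h]
      have h1 : Real.log (((k + 1 : ℕ) : ℝ) + 1) - Real.log ((k : ℝ) + 1) ≤ 1 / ((k + 1 : ℕ) : ℝ) := by
        rw [← Real.log_div (by positivity) (by positivity)]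
        refine (Real.log_le_sub_one_of_pos (by positivity)).trans (le_of_eq ?_)
        push_cast
        field_simp
        ring
      linarith

lemma ev_scale (k' c : ℝ) (hk : 0 < k') :
    ∀ᶠ u : ℝ in atTop, Real.log u < k' * (u / 4 - c - Real.log u) := by
  have h1 := Real.isLittleO_log_id_atTop.bound (c := k' / (8 * (k' + 1))) (by positivity)
  filter_upwards [h1, eventually_ge_atTop (1 : ℝ), eventually_gt_atTop (8 * c)] with u h2 h3 h4
  rw [Real.norm_of_nonneg (Real.log_nonneg h3), id, Real.norm_of_nonneg (by linarith)] at h2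
  have h5 : (k' + 1) * Real.log u ≤ k' / 8 * u := by
    calc (k' + 1) * Real.log u ≤ (k' + 1) * (k' / (8 * (k' + 1)) * u) := by gcongr
      _ = k' / 8 * u := by field_simp
  nlinarith

lemma log64_bounds : 4 < Real.log 64 ∧ Real.log 64 < 5 := by
  have h : Real.log 64 = 6 * Real.log 2 := by
    rw [show (64 : ℝ) = 2 ^ 6 by norm_num, Real.log_pow]; norm_num
  have h1 := Real.log_two_gt_d9
  have h2 := Real.log_two_lt_d9
  rw [h]
  constructor <;> linarith

lemma log16_bounds : 0 < Real.log 16 ∧ Real.log 16 < 3 := by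
  have h : Real.log 16 = 4 * Real.log 2 := by
    rw [show (16 : ℝ) = 2 ^ 4 by norm_num, Real.log_pow]; norm_num
  have h1 := Real.log_two_gt_d9
  have h2 := Real.log_two_lt_d9
  rw [h]
  constructor <;> linarith

theorem scale : StmtScale := by
  intro κ hκ
  obtain ⟨L4, L5⟩ := log64_bounds
  obtain ⟨l0, l3⟩ := log16_bounds
  set L := Real.log 64 with hL
  set k' := κ / (4 * L) with hk'
  have hk'0 : 0 < k' := by positivity
  have hev := (Real.tendsto_log_atTop.eventually (ev_scale k' (Real.log 200) hk'0))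
  obtain ⟨a₁, ha₁⟩ := eventually_atTop.1 hev
  refine ⟨max (max a₁ (Real.exp 1)) (6 ^ (4 : ℝ)), ?_, ?_⟩
  · refine le_trans ?_ (le_max_right _ _)
    norm_num
  intro a n ha hmass
  have haa : a₁ ≤ a := (le_max_left _ _).trans ((le_max_left _ _).trans ha)
  have hae : Real.exp 1 ≤ a := (le_max_right _ _).trans ((le_max_left _ _).trans ha)
  have ha6 : (6 : ℝ) ^ (4 : ℝ) ≤ a := (le_max_right _ _).trans ha
  have ha8 : 8 ≤ a := by
    refine le_trans ?_ ha6
    norm_num
  have ha0 : 0 < a := by linarith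
  have hu1 : 1 ≤ Real.log a := by
    rw [Real.le_log_iff_exp_le ha0]
    exact hae
  have hkey := ha₁ a haa
  set r := a ^ (1 / 4 : ℝ) with hr
  have hr6 : 6 ≤ r := by
    have : ((6 : ℝ) ^ (4 : ℝ)) ^ (1 / 4 : ℝ) = 6 := by
      rw [← Real.rpow_mul (by norm_num)]
      norm_num
    rw [← this, hr]
    exact Real.rpow_le_rpow (by positivity) ha6 (by norm_num)
  have hlr : Real.log r = 1 / 4 * Real.log a := by rw [hr, Real.log_rpow ha0]
  by_contra hcon
  push Not at hcon
  -- the windows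
  set i1 : ℕ := ⌈33 * Real.log a / L⌉₊ + 1 with hi1
  set i2 : ℕ := ⌊(r - Real.log 16) / L⌋₊ with hi2
  have hi1le : (i1 : ℝ) ≤ 33 * Real.log a / L + 2 := by
    rw [hi1]
    push_cast
    have := Nat.ceil_lt_add_one (a := 33 * Real.log a / L) (by positivity)
    linarith
  have hi1ge : 33 * Real.log a / L ≤ i1 := by
    rw [hi1]
    push_cast
    have := Nat.le_ceil (33 * Real.log a / L)
    linarith
  have hi2le : (i2 : ℝ) ≤ (r - Real.log 16) / L :=
    Nat.floor_le (div_nonneg (by linarith) (by linarith))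
  have hi2ge : (r - Real.log 16) / L < (i2 : ℝ) + 1 := Nat.lt_floor_add_one _
  have hpowlog : ∀ i : ℕ, Real.log ((64 : ℝ) ^ i) = i * L := fun i => by rw [Real.log_pow]
  have hXlow : ∀ i : ℕ, i1 ≤ i → a ^ (33 : ℝ) ≤ (64 : ℝ) ^ i := by
    intro i hi
    have h1 : (i1 : ℝ) ≤ i := by exact_mod_cast hi
    rw [← Real.log_le_log_iff (by positivity) (by positivity), Real.log_rpow ha0, hpowlog]
    have h2 : 33 * Real.log a / L ≤ i := hi1ge.trans h1
    rw [div_le_iff₀ (by linarith)] at h2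
    exact h2
  have hXup : ∀ i : ℕ, i ≤ i2 → 16 * (64 : ℝ) ^ i ≤ Real.exp r := by
    intro i hi
    have h1 : (i : ℝ) ≤ i2 := by exact_mod_cast hi
    rw [← Real.log_le_iff_le_exp (by positivity), Real.log_mul (by norm_num) (by positivity),
      hpowlog]
    have h2 : (i : ℝ) ≤ (r - Real.log 16) / L := h1.trans hi2le
    rw [le_div_iff₀ (by linarith)] at h2
    linarith
  set W : ℕ → Finset ℕ := fun i =>
    (PI ((64 : ℝ) ^ i / 8) (4 * (64 : ℝ) ^ i)).filter (fun p => p ∣ n) with hW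
  have hmemW : ∀ i p, p ∈ W i ↔ (p.Prime ∧ (64 : ℝ) ^ i / 8 < p ∧ (p : ℝ) ≤ 4 * (64 : ℝ) ^ i)
      ∧ p ∣ n := by
    intro i p
    rw [hW]
    simp only [mem_filter]
    rw [mem_PI (by positivity)]
  have hcard : ∀ i ∈ Icc i1 i2, κ * ((64 : ℝ) ^ i / (i * L)) < ((W i).card : ℝ) := by
    intro i hi
    rw [mem_Icc] at hi
    have h1 := hcon ((64 : ℝ) ^ i) (hXlow i hi.1) (hXup i hi.2)
    rw [hpowlog] at h1
    exact h1
  have hWsum : ∀ i ∈ Icc i1 i2, k' * (1 / (i : ℝ)) ≤ ∑ p ∈ W i, (1 : ℝ) / p := by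
    intro i hi
    have h1 := hcard i hi
    rw [mem_Icc] at hi
    have hi0 : 0 < i := by omega
    have hi0r : (0 : ℝ) < i := by exact_mod_cast hi0
    have hX0 : (0 : ℝ) < (64 : ℝ) ^ i := by positivity
    have h2 : ((W i).card : ℝ) * (1 / (4 * (64 : ℝ) ^ i)) ≤ ∑ p ∈ W i, (1 : ℝ) / p := by
      rw [← nsmul_eq_mul, ← Finset.sum_const]
      apply Finset.sum_le_sum
      intro p hp
      rw [hmemW] at hp
      have hp0 : (0 : ℝ) < p := by exact_mod_cast hp.1.1.pos
      exact one_div_le_one_div_of_le hp0 hp.1.2.2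
    refine le_trans ?_ h2
    have h3 : κ * ((64 : ℝ) ^ i / (i * L)) * (1 / (4 * (64 : ℝ) ^ i)) = k' * (1 / (i : ℝ)) := by
      rw [hk']
      field_simp
    rw [← h3]
    exact mul_le_mul_of_nonneg_right h1.le (by positivity)
  have hdisj : ∀ i j : ℕ, i < j → Disjoint (W i) (W j) := by
    intro i j hij
    rw [Finset.disjoint_left]
    intro p hp hq
    rw [hmemW] at hp hq
    have h1 : (64 : ℝ) ^ (i + 1) ≤ (64 : ℝ) ^ j := pow_le_pow_right₀ (by norm_num) hij
    rw [pow_succ] at h1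
    have hX0 : (0 : ℝ) < (64 : ℝ) ^ i := by positivity
    linarith [hp.1.2.2, hq.1.2.1]
  have hpair : Set.PairwiseDisjoint (↑(Icc i1 i2)) W := by
    intro i _ j _ hij
    rcases lt_or_gt_of_ne hij with h | h
    · exact hdisj i j h
    · exact (hdisj j i h).symm
  have hsubW : (Icc i1 i2).biUnion W
      ⊆ (PI (a ^ (32 : ℝ)) (4 * (64 : ℝ) ^ i2)).filter (fun p => p ∣ n) := by
    intro p hp
    rw [Finset.mem_biUnion] at hp
    obtain ⟨i, hi, hp⟩ := hp
    rw [hmemW] at hp
    rw [mem_Icc] at hi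
    rw [mem_filter, mem_PI (by positivity)]
    refine ⟨⟨hp.1.1, ?_, ?_⟩, hp.2⟩
    · refine lt_of_le_of_lt ?_ hp.1.2.1
      have h1 := hXlow i hi.1
      have h2 : a ^ (33 : ℝ) = a ^ (32 : ℝ) * a := by
        rw [show (33 : ℝ) = 32 + 1 by norm_num, Real.rpow_add ha0, Real.rpow_one]
      have h3 : 0 < a ^ (32 : ℝ) := by positivity
      rw [h2] at h1
      rw [le_div_iff₀ (by norm_num)]
      exact (mul_le_mul_of_nonneg_left ha8 h3.le).trans h1
    · refine hp.1.2.2.trans ?_
      have : (64 : ℝ) ^ i ≤ (64 : ℝ) ^ i2 := pow_le_pow_right₀ (by norm_num) hi.2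
      linarith
  have htot : k' * ∑ i ∈ Icc i1 i2, (1 : ℝ) / i ≤ Real.log (Real.log a) := by
    calc k' * ∑ i ∈ Icc i1 i2, (1 : ℝ) / i = ∑ i ∈ Icc i1 i2, k' * (1 / (i : ℝ)) := by
          rw [Finset.mul_sum]
      _ ≤ ∑ i ∈ Icc i1 i2, ∑ p ∈ W i, (1 : ℝ) / p := Finset.sum_le_sum hWsum
      _ = ∑ p ∈ (Icc i1 i2).biUnion W, (1 : ℝ) / p := (Finset.sum_biUnion hpair).symm
      _ ≤ mE n (a ^ (32 : ℝ)) (4 * (64 : ℝ) ^ i2) := by
          rw [mE]
          exact Finset.sum_le_sum_of_subset_of_nonneg hsubW (fun p _ _ => by positivity)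
      _ ≤ _ := hmass _
  -- the logarithms
  have hi1pos : (0 : ℝ) < i1 := by
    rw [hi1]; push_cast; positivity
  have hB1 : 1 / 4 * Real.log a - Real.log 10 ≤ Real.log ((i2 : ℝ) + 1) := by
    have h1 : r / 10 ≤ (i2 : ℝ) + 1 := by
      refine le_trans ?_ hi2ge.le
      rw [div_le_div_iff₀ (by norm_num) (by linarith)]
      nlinarith
    calc 1 / 4 * Real.log a - Real.log 10 = Real.log (r / 10) := by
          rw [Real.log_div (by linarith) (by norm_num), hlr]
      _ ≤ _ := Real.log_le_log (by linarith) h1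
  have hB2 : Real.log (i1 : ℝ) ≤ Real.log 20 + Real.log (Real.log a) := by
    rw [← Real.log_mul (by norm_num) (by linarith)]
    apply Real.log_le_log hi1pos
    refine hi1le.trans ?_
    have h1 : 33 * Real.log a / L ≤ 33 * Real.log a / 4 := by gcongr
    linarith
  have h200 : Real.log 10 + Real.log 20 = Real.log 200 := by
    rw [← Real.log_mul (by norm_num) (by norm_num)]
    norm_num
  have hB : Real.log a / 4 - Real.log 200 - Real.log (Real.log a)
      ≤ Real.log ((i2 : ℝ) + 1) - Real.log i1 := by linarith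
  have hlogu : 0 ≤ Real.log (Real.log a) := Real.log_nonneg hu1
  have hkB : Real.log (Real.log a) < k' * (Real.log ((i2 : ℝ) + 1) - Real.log i1) :=
    lt_of_lt_of_le hkey (mul_le_mul_of_nonneg_left hB hk'0.le)
  have hBpos : 0 < Real.log ((i2 : ℝ) + 1) - Real.log i1 := by
    by_contra hneg
    push Not at hneg
    have := mul_nonpos_of_nonneg_of_nonpos hk'0.le hneg
    linarith
  have hi12 : i1 ≤ i2 + 1 := by
    have h1 : Real.log (i1 : ℝ) < Real.log ((i2 : ℝ) + 1) := by linarith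
    have h2 := (Real.log_lt_log_iff hi1pos (by positivity)).1 h1
    have h3 : ((i1 : ℕ) : ℝ) < ((i2 + 1 : ℕ) : ℝ) := by push_cast; exact h2
    exact (by exact_mod_cast h3 : i1 < i2 + 1).le
  have hfin := sum_inv_ge i1 i2 (by omega) hi12
  have := mul_le_mul_of_nonneg_left hfin hk'0.le
  linarith

end

end Pool.Agent.Lib_helper29.SW
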